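import Pool.Agent.L5helper98.ID.Defs

set_option autoImplicit false

open MeasureTheory ProbabilityTheory Filter Topology Set
open scoped ENNReal

namespace Pool.Agent.L5helper81.ID

open Pool.Agent.L5helper98.ID

lemma exp_le (j : ℕ) (t : ℝ) : Real.exp (j * Real.log t) ≤ |t| ^ j + 1 := by
  rcases eq_or_ne t 0 with rfl | h
  · simp
  · rw [mul_comm, Real.exp_mul, Real.exp_log_eq_abs h, Real.rpow_natCast]
    linarith

lemma le_exp (j : ℕ) (t : ℝ) (hj : j ≠ 0) : |t| ^ j ≤ Real.exp (j * Real.log t) := by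
  rcases eq_or_ne t 0 with rfl | h
  · simp [hj]
  · rw [mul_comm, Real.exp_mul, Real.exp_log_eq_abs h, Real.rpow_natCast]

lemma meas_exp (j : ℕ) : Measurable fun t : ℝ => Real.exp (j * Real.log t) :=
  (Real.measurable_log.const_mul _).exp

lemma int_map (τ : Measure ℝ) (j : ℕ) :
    ∫ y, Real.exp (j * y) ∂(τ.map Real.log) = ∫ t, Real.exp (j * Real.log t) ∂τ := by
  rw [integral_map Real.measurable_log.aemeasurable]
  exact (Measurable.aestronglyMeasurable (by fun_prop))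

lemma lint_eq (τ : Measure ℝ) (j : ℕ) :
    ∫⁻ t, ENNReal.ofReal |t| ^ j ∂τ = ∫⁻ t, ENNReal.ofReal (|t| ^ j) ∂τ := by
  refine lintegral_congr fun t => ?_
  rw [ENNReal.ofReal_pow (abs_nonneg t)]

lemma integrable_of_lt (τ : Measure ℝ) (j : ℕ) (h : ∫⁻ t, ENNReal.ofReal |t| ^ j ∂τ < ⊤) :
    Integrable (fun t => |t| ^ j) τ := by
  refine ⟨(Measurable.aestronglyMeasurable (by fun_prop)), ?_⟩
  rw [hasFiniteIntegral_iff_ofReal (Eventually.of_forall fun t => by positivity)]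
  rwa [lint_eq] at h

lemma int_eq (τ : Measure ℝ) (j : ℕ) :
    ∫ t, |t| ^ j ∂τ = (∫⁻ t, ENNReal.ofReal |t| ^ j ∂τ).toReal := by
  rw [lint_eq, integral_eq_lintegral_of_nonneg_ae (Eventually.of_forall fun t => by positivity)
    (Measurable.aestronglyMeasurable (by fun_prop))]

lemma integrable_exp (τ : Measure ℝ) [IsFiniteMeasure τ] (j : ℕ)
    (h : Integrable (fun t => |t| ^ j) τ) :
    Integrable (fun t => Real.exp (j * Real.log t)) τ := by
  refine (h.add (integrable_const (1 : ℝ))).mono' (meas_exp j).aestronglyMeasurable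
    (Eventually.of_forall fun t => ?_)
  rw [Real.norm_eq_abs, abs_of_pos (Real.exp_pos _)]
  exact exp_le j t

lemma integrable_le (τ : Measure ℝ) [IsFiniteMeasure τ] (j : ℕ) (hj : j ≤ 4)
    (h : Integrable (fun t => |t| ^ 4) τ) : Integrable (fun t => |t| ^ j) τ := by
  refine (h.add (integrable_const (1 : ℝ))).mono' (Measurable.aestronglyMeasurable (by fun_prop))
    (Eventually.of_forall fun t => ?_)
  rw [Real.norm_eq_abs, abs_of_nonneg (by positivity)]
  show |t| ^ j ≤ |t| ^ 4 + 1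
  rcases le_total |t| 1 with h1 | h1
  · have := pow_le_one₀ (n := j) (abs_nonneg t) h1
    have : 0 ≤ |t| ^ 4 := by positivity
    linarith
  · have := pow_le_pow_right₀ h1 hj
    linarith

lemma upper (τ : Measure ℝ) [IsProbabilityMeasure τ] (j : ℕ) (b : ℝ) (hb : 0 ≤ b)
    (h4 : Integrable (fun t => |t| ^ j) τ)
    (h : ∫⁻ t, ENNReal.ofReal |t| ^ j ∂τ ≤ ENNReal.ofReal b) :
    ∫ t, Real.exp (j * Real.log t) ∂τ ≤ b + 1 := by
  have h1 : ∫ t, Real.exp (j * Real.log t) ∂τ ≤ ∫ t, (|t| ^ j + 1) ∂τ :=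
    integral_mono (integrable_exp τ j h4) (h4.add (integrable_const 1)) (exp_le j)
  rw [integral_add h4 (integrable_const 1), int_eq] at h1
  have h2 : (∫⁻ t, ENNReal.ofReal |t| ^ j ∂τ).toReal ≤ b := ENNReal.toReal_le_of_le_ofReal hb h
  simp only [integral_const, probReal_univ, smul_eq_mul, mul_one] at h1
  linarith

lemma lower (τ : Measure ℝ) [IsProbabilityMeasure τ] (j : ℕ) (hj : j ≠ 0) (b : ℝ) (hb : 0 ≤ b)
    (h4 : Integrable (fun t => |t| ^ j) τ)
    (h : ENNReal.ofReal b ≤ ∫⁻ t, ENNReal.ofReal |t| ^ j ∂τ) :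
    b ≤ ∫ t, Real.exp (j * Real.log t) ∂τ := by
  have h1 : ∫ t, |t| ^ j ∂τ ≤ ∫ t, Real.exp (j * Real.log t) ∂τ :=
    integral_mono h4 (integrable_exp τ j h4) (fun t => le_exp j t hj)
  refine le_trans ?_ h1
  rw [int_eq]
  have h5 := (hasFiniteIntegral_iff_ofReal (Eventually.of_forall fun t : ℝ => by positivity)).1 h4.2
  rw [← lint_eq] at h5
  exact (ENNReal.ofReal_le_iff_le_toReal h5.ne).1 h

theorem TRA2_holds : St_TRA2 := by
  intro τ _ b1 b2 b3 b4 h1 h2 h3 h4 g1 g2 g3 g4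
  have i4 : Integrable (fun t => |t| ^ 4) τ :=
    integrable_of_lt τ 4 (lt_of_le_of_lt g4 ENNReal.ofReal_lt_top)
  have i3 := integrable_le τ 3 (by norm_num) i4
  have i2 := integrable_le τ 2 (by norm_num) i4
  have i1 := integrable_le τ 1 (by norm_num) i4
  have e1 : ∫ y, Real.exp y ∂(τ.map Real.log) = ∫ t, Real.exp ((1 : ℕ) * Real.log t) ∂τ := by
    rw [← int_map]; simp
  have e2 : ∫ y, Real.exp (2 * y) ∂(τ.map Real.log) = ∫ t, Real.exp ((2 : ℕ) * Real.log t) ∂τ := by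
    rw [← int_map]; norm_num
  have e3 : ∫ y, Real.exp (3 * y) ∂(τ.map Real.log) = ∫ t, Real.exp ((3 : ℕ) * Real.log t) ∂τ := by
    rw [← int_map]; norm_num
  have e4 : ∫ y, Real.exp (4 * y) ∂(τ.map Real.log) = ∫ t, Real.exp ((4 : ℕ) * Real.log t) ∂τ := by
    rw [← int_map]; norm_num
  rw [e1, e2, e3, e4]
  refine ⟨?_, upper τ 4 b4 h4 i4 g4, upper τ 2 b2 h2 i2 g2, lower τ 3 (by norm_num) b3 h3 i3 g3,
    lower τ 1 (by norm_num) b1 h1 i1 (by simpa using g1)⟩
  rw [integrable_map_measure (Measurable.aestronglyMeasurable (by fun_prop))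
    Real.measurable_log.aemeasurable]
  have := integrable_exp τ 4 i4
  simpa [Function.comp_def] using this

end Pool.Agent.L5helper81.ID
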